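import Pool.Agent.H25.Wei1

set_option autoImplicit false
open Pool.Agent.H25.Wei

namespace Pool.Agent.Results.MP_2d238a_lc.No

theorem result (f h : ℕ → Problem) (H : ∀ n m, WRed (f n) (h m)) :
    ∃ g : Problem, (∀ n, WRed (f n) g) ∧ ∀ m, WRed g (h m) :=
  let ⟨g, hg⟩ := interp f h H
  ⟨g, fun n => (hg n).1, fun m => (hg m).2⟩

end Pool.Agent.Results.MP_2d238a_lc.No
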